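import Mathlib
import Pool.Agent.Helper689.CL8

set_option autoImplicit false

namespace Pool.Agent.H314.DM

open Finset Pool.Agent.Helper689.CL

/-- the value at `a` of the polynomial over `ℤ/q` with coefficient vector `c` -/
def ev {q : ℕ} (c : Fin 11 → ZMod q) (a : ZMod q) : ZMod q := ∑ i, c i * a ^ (i : ℕ)

/-- two different polynomials of degree at most `10` agree at at most `10` points -/
theorem agree_le {q : ℕ} [Fact q.Prime] {c c' : Fin 11 → ZMod q} (h : c ≠ c') :
    (Finset.univ.filter fun a : ZMod q => ev c a = ev c' a).card ≤ 10 := by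
  classical
  set P : Polynomial (ZMod q) :=
    ∑ i : Fin 11, Polynomial.C (c i - c' i) * Polynomial.X ^ (i : ℕ) with hP
  have hcoeff : ∀ i : Fin 11, P.coeff (i : ℕ) = c i - c' i := by
    intro i
    rw [hP, Polynomial.finset_sum_coeff]
    simp only [Polynomial.coeff_C_mul, Polynomial.coeff_X_pow]
    rw [Finset.sum_eq_single i]
    · simp
    · intro j _ hj
      have : (i : ℕ) ≠ (j : ℕ) := fun e => hj (Fin.ext e.symm)
      simp [this]
    · intro hi
      exact absurd (Finset.mem_univ i) hi
  have hP0 : P ≠ 0 := by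
    intro h0
    apply h
    funext i
    have := hcoeff i
    rw [h0, Polynomial.coeff_zero] at this
    exact (sub_eq_zero.1 this.symm)
  have hdeg : P.natDegree ≤ 10 := by
    rw [hP]
    refine Polynomial.natDegree_sum_le_of_forall_le _ _ fun i _ => ?_
    refine (Polynomial.natDegree_C_mul_X_pow_le _ _).trans ?_
    have := i.2
    omega
  have heval : ∀ a, P.eval a = ev c a - ev c' a := by
    intro a
    rw [hP, Polynomial.eval_finset_sum]
    simp only [Polynomial.eval_mul, Polynomial.eval_C, Polynomial.eval_pow, Polynomial.eval_X, ev]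
    rw [← Finset.sum_sub_distrib]
    exact Finset.sum_congr rfl fun i _ => by ring
  have hsub : (Finset.univ.filter fun a : ZMod q => ev c a = ev c' a) ⊆ P.roots.toFinset := by
    intro a ha
    rw [Finset.mem_filter] at ha
    rw [Multiset.mem_toFinset, Polynomial.mem_roots hP0, Polynomial.IsRoot.def, heval, ha.2,
      sub_self]
  calc (Finset.univ.filter fun a : ZMod q => ev c a = ev c' a).card
      ≤ P.roots.toFinset.card := Finset.card_le_card hsub
    _ ≤ Multiset.card P.roots := Multiset.toFinset_card_le _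
    _ ≤ P.natDegree := Polynomial.card_roots' P
    _ ≤ 10 := hdeg

variable {q m : ℕ} [Fact q.Prime]

/-- the embedding defining the test space of the set `x` of polynomials -/
noncomputable def Jq (e : ZMod q × ZMod q → Fin m) (x : Set (Fin 11 → ZMod q)) :
    (Fin m → ℝ) →ₗ[ℝ] (Fin m → ℝ) × ((Fin 11 → ZMod q) → ℝ) := by
  classical
  exact LinearMap.prod LinearMap.id
    { toFun := fun z c => if c ∈ x then ∑ a, z (e (a, ev c a)) else 0
      map_add' := fun z z' => by
        funext c
        by_cases hc : c ∈ x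
        · simp [hc, Finset.sum_add_distrib]
        · simp [hc]
      map_smul' := fun r z => by
        funext c
        by_cases hc : c ∈ x
        · simp [hc, Finset.mul_sum]
        · simp [hc] }

theorem Jq_fst (e : ZMod q × ZMod q → Fin m) (x : Set (Fin 11 → ZMod q)) (z : Fin m → ℝ) :
    (Jq e x z).1 = z := rfl

theorem Jq_snd_mem (e : ZMod q × ZMod q → Fin m) {x : Set (Fin 11 → ZMod q)} (z : Fin m → ℝ)
    {c : Fin 11 → ZMod q} (hc : c ∈ x) : (Jq e x z).2 c = ∑ a, z (e (a, ev c a)) := by
  unfold Jq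
  simp [hc]

theorem Jq_snd_not_mem (e : ZMod q × ZMod q → Fin m) {x : Set (Fin 11 → ZMod q)} (z : Fin m → ℝ)
    {c : Fin 11 → ZMod q} (hc : c ∉ x) : (Jq e x z).2 c = 0 := by
  unfold Jq
  simp [hc]

theorem Jq_injective (e : ZMod q × ZMod q → Fin m) (x : Set (Fin 11 → ZMod q)) :
    Function.Injective (Jq e x) := by
  intro z z' h
  exact congrArg Prod.fst h

theorem abs_le_Jq (e : ZMod q × ZMod q → Fin m) (x : Set (Fin 11 → ZMod q)) (z : Fin m → ℝ)
    (k : Fin m) : |z k| ≤ ‖Jq e x z‖ := by
  rw [Prod.norm_def]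
  exact (norm_le_pi_norm z k).trans (le_max_left _ _)

theorem Jq_le {e : ZMod q × ZMod q → Fin m} {x : Set (Fin 11 → ZMod q)} {z : Fin m → ℝ} {r : ℝ}
    (hr : 0 ≤ r) (h1 : ∀ k, |z k| ≤ r) (h2 : ∀ c ∈ x, |∑ a, z (e (a, ev c a))| ≤ r) :
    ‖Jq e x z‖ ≤ r := by
  rw [Prod.norm_def]
  refine max_le ?_ ?_
  · exact (pi_norm_le_iff_of_nonneg hr).2 h1
  · refine (pi_norm_le_iff_of_nonneg hr).2 fun c => ?_
    by_cases hc : c ∈ x
    · rw [Jq_snd_mem e z hc]
      exact h2 c hc
    · rw [Jq_snd_not_mem e z hc, norm_zero]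
      exact hr

theorem Jq_single_le {e : ZMod q × ZMod q → Fin m} (he : Function.Injective e)
    (x : Set (Fin 11 → ZMod q)) (k : Fin m) : ‖Jq e x (Pi.single k 1)‖ ≤ 1 := by
  classical
  refine Jq_le zero_le_one (fun j => ?_) fun c _ => ?_
  · by_cases h : j = k
    · subst h; simp
    · simp [h]
  · have h1 : ∑ a : ZMod q, (Pi.single k (1 : ℝ) : Fin m → ℝ) (e (a, ev c a)) =
        ((Finset.univ.filter fun a : ZMod q => e (a, ev c a) = k).card : ℝ) := by
      rw [Finset.card_filter]
      push_cast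
      exact Finset.sum_congr rfl fun a _ => by simp [Pi.single_apply]
    have h2 : (Finset.univ.filter fun a : ZMod q => e (a, ev c a) = k).card ≤ 1 := by
      rw [Finset.card_le_one]
      intro a ha b hb
      rw [Finset.mem_filter] at ha hb
      exact congrArg Prod.fst (he (ha.2.trans hb.2.symm))
    rw [h1, abs_of_nonneg (Nat.cast_nonneg _)]
    exact_mod_cast h2

/-- the test vector: indicator function of the graph of the polynomial `c` -/
noncomputable def tv (e : ZMod q × ZMod q → Fin m) (c : Fin 11 → ZMod q) : Fin m → ℝ := by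
  classical
  exact fun k => if ∃ a, e (a, ev c a) = k then 1 else 0

theorem tv_apply {e : ZMod q × ZMod q → Fin m} (he : Function.Injective e)
    (c : Fin 11 → ZMod q) (a b : ZMod q) :
    tv e c (e (a, b)) = if ev c a = b then 1 else 0 := by
  classical
  unfold tv
  have : (∃ a', e (a', ev c a') = e (a, b)) ↔ ev c a = b := by
    constructor
    · rintro ⟨a', h⟩
      have h1 := he h
      have h2 : a' = a := congrArg Prod.fst h1
      have h3 : ev c a' = b := congrArg Prod.snd h1
      rw [← h2]; exact h3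
    · intro h
      exact ⟨a, by rw [h]⟩
  simp only [this]

theorem le_Jq_tv {e : ZMod q × ZMod q → Fin m} (he : Function.Injective e)
    {x : Set (Fin 11 → ZMod q)} {c : Fin 11 → ZMod q} (hc : c ∈ x) :
    (q : ℝ) ≤ ‖Jq e x (tv e c)‖ := by
  have h1 : (Jq e x (tv e c)).2 c = q := by
    rw [Jq_snd_mem e _ hc]
    simp [tv_apply he, ZMod.card]
  calc (q : ℝ) = ‖(Jq e x (tv e c)).2 c‖ := by rw [h1]; simp
    _ ≤ ‖(Jq e x (tv e c)).2‖ := norm_le_pi_norm _ _
    _ ≤ ‖Jq e x (tv e c)‖ := by rw [Prod.norm_def]; exact le_max_right _ _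

theorem Jq_tv_le {e : ZMod q × ZMod q → Fin m} (he : Function.Injective e)
    {x : Set (Fin 11 → ZMod q)} {c : Fin 11 → ZMod q} (hc : c ∉ x) :
    ‖Jq e x (tv e c)‖ ≤ 10 := by
  classical
  refine Jq_le (by norm_num) (fun k => ?_) fun c' hc' => ?_
  · unfold tv
    split_ifs <;> norm_num
  · have hne : c ≠ c' := fun h => hc (h ▸ hc')
    have h1 : ∑ a : ZMod q, tv e c (e (a, ev c' a)) =
        ((Finset.univ.filter fun a : ZMod q => ev c a = ev c' a).card : ℝ) := by
      rw [Finset.card_filter]
      push_cast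
      exact Finset.sum_congr rfl fun a _ => tv_apply he c a _
    rw [h1, abs_of_nonneg (Nat.cast_nonneg _)]
    exact_mod_cast agree_le hne

end Pool.Agent.H314.DM
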