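import Mathlib
import Pool.Agent.Helper689.CL9
import Pool.Agent.H314.DM.Rs

set_option autoImplicit false

namespace Pool.Agent.H314.DM

open Finset Pool.Agent.Helper689.CL

universe u

theorem card_gt {q m : ℕ} (hq : 8 ≤ q) (hm : m < 4 * q ^ 2) :
    Real.exp ((m : ℝ) ^ 3 + (m : ℝ) ^ 4) < (2 : ℝ) ^ (q ^ 11) := by
  have hlog := Real.log_two_gt_d9
  have hq8 : (8 : ℝ) ≤ q := by exact_mod_cast hq
  have hmR : (m : ℝ) ≤ 4 * (q : ℝ) ^ 2 := by exact_mod_cast hm.le
  have hm0 : (0 : ℝ) ≤ m := Nat.cast_nonneg _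
  have e : (2 : ℝ) ^ (q ^ 11) = Real.exp ((q : ℝ) ^ 11 * Real.log 2) := by
    conv_lhs => rw [← Real.exp_log (show (0 : ℝ) < 2 by norm_num)]
    rw [← Real.exp_nat_mul]
    congr 1; push_cast; ring
  rw [e]
  apply Real.exp_lt_exp.2
  have h3 : (m : ℝ) ^ 3 ≤ 64 * (q : ℝ) ^ 6 := by
    calc (m : ℝ) ^ 3 ≤ (4 * (q : ℝ) ^ 2) ^ 3 := pow_le_pow_left₀ hm0 hmR 3
      _ = _ := by ring
  have h4 : (m : ℝ) ^ 4 ≤ 256 * (q : ℝ) ^ 8 := by
    calc (m : ℝ) ^ 4 ≤ (4 * (q : ℝ) ^ 2) ^ 4 := pow_le_pow_left₀ hm0 hmR 4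
      _ = _ := by ring
  have h6 : 64 * (q : ℝ) ^ 6 ≤ (q : ℝ) ^ 8 := by
    have : (64 : ℝ) ≤ (q : ℝ) ^ 2 := by nlinarith
    calc 64 * (q : ℝ) ^ 6 ≤ (q : ℝ) ^ 2 * (q : ℝ) ^ 6 :=
          mul_le_mul_of_nonneg_right this (by positivity)
      _ = _ := by ring
  have h11 : 512 * (q : ℝ) ^ 8 ≤ (q : ℝ) ^ 11 := by
    have : (512 : ℝ) ≤ (q : ℝ) ^ 3 := by
      calc (512 : ℝ) = 8 ^ 3 := by norm_num
        _ ≤ (q : ℝ) ^ 3 := pow_le_pow_left₀ (by norm_num) hq8 3
    calc 512 * (q : ℝ) ^ 8 ≤ (q : ℝ) ^ 3 * (q : ℝ) ^ 8 :=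
          mul_le_mul_of_nonneg_right this (by positivity)
      _ = _ := by ring
  have hpos : 0 < (q : ℝ) ^ 8 := by positivity
  have hlog' : (0.69 : ℝ) < Real.log 2 := by linarith
  have h0 : 0 < (q : ℝ) ^ 11 := by positivity
  nlinarith

theorem key {m q : ℕ} [Fact q.Prime] (hm1 : 1 ≤ m) {R : ℝ} (hR0 : 0 ≤ R) (hRm : R ≤ m)
    {e : ZMod q × ZMod q → Fin m} (he : Function.Injective e)
    {x y : Set (Fin 11 → ZMod q)} {s : Fin (m * m) → Fin m → Bool} {Λ Λ' : Fin m → Fin m → ℝ}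
    (h : Coded R (fun z => ‖Jq e x z‖) s Λ) (h' : Coded R (fun z => ‖Jq e y z‖) s Λ')
    (hr : ∀ i k, rnd m (Λ i k) = rnd m (Λ' i k)) {c : Fin 11 → ZMod q} (hx : c ∈ x)
    (hy : c ∉ y) : (q : ℝ) ≤ (R + 1 / 2) * 10 := by
  have hcomp := compare hm1 hR0 h h' (abs_le_Jq e y)
    (fun i k => rnd_eq hm1 ((h.bd i k).trans hRm) ((h'.bd i k).trans hRm) (hr i k)) (tv e c)
  calc (q : ℝ) ≤ ‖Jq e x (tv e c)‖ := le_Jq_tv he hx
    _ ≤ (R + 1 / 2) * ‖Jq e y (tv e c)‖ := hcomp
    _ ≤ (R + 1 / 2) * 10 := mul_le_mul_of_nonneg_left (Jq_tv_le he hy) (by linarith)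

theorem main (m : ℕ) (hm1 : 1 ≤ m) :
    ∃ (X : Type) (_ : NormedAddCommGroup X) (_ : NormedSpace ℝ X), Module.finrank ℝ X = m ∧
      ∀ (Y : Type u) [NormedAddCommGroup Y] [NormedSpace ℝ Y], Module.finrank ℝ Y = m →
        numIndex Y = 1 → Real.sqrt m / 30 ≤ bmDist X Y := by
  classical
  have hcle : ∀ (X : Type) [NormedAddCommGroup X] [NormedSpace ℝ X], Module.finrank ℝ X = m →
      ∀ (Y : Type u) [NormedAddCommGroup Y] [NormedSpace ℝ Y], Module.finrank ℝ Y = m →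
      Nonempty (X ≃L[ℝ] Y) := by
    intro X _ _ hX Y _ _ hY
    have : FiniteDimensional ℝ X := FiniteDimensional.of_finrank_pos (by omega)
    have : FiniteDimensional ℝ Y := FiniteDimensional.of_finrank_pos (by omega)
    exact ⟨ContinuousLinearEquiv.ofFinrankEq (hX.trans hY.symm)⟩
  set R : ℝ := Real.sqrt m / 30 with hR
  rcases le_or_gt R 1 with hR1 | hR1
  · refine ⟨Fin m → ℝ, inferInstance, inferInstance, by simp, ?_⟩
    intro Y _ _ hY _
    have : Nontrivial (Fin m → ℝ) := by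
      have : Nonempty (Fin m) := ⟨⟨0, hm1⟩⟩
      infer_instance
    exact hR1.trans (one_le_bmDist (hcle (Fin m → ℝ) (by simp) Y hY))
  · by_contra hcon
    push Not at hcon
    have hR0 : 0 ≤ R := by linarith
    have hsq30 : 30 < Real.sqrt m := by rw [hR] at hR1; linarith
    have hm0 : (0 : ℝ) ≤ m := Nat.cast_nonneg _
    have hsqm : Real.sqrt m * Real.sqrt m = m := Real.mul_self_sqrt hm0
    have hm900 : (900 : ℝ) < m := by nlinarith
    have hm900' : 900 < m := by exact_mod_cast hm900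
    have hRm : R ≤ m := by rw [hR]; nlinarith
    -- the prime
    set t : ℕ := Nat.sqrt m with ht
    have ht1 : t * t ≤ m := Nat.sqrt_le m
    have ht2 : m < (t + 1) * (t + 1) := Nat.lt_succ_sqrt m
    have ht30 : 30 ≤ t := by
      rw [ht]
      exact Nat.le_sqrt.2 (by omega)
    obtain ⟨q, hqp, hq1, hq2⟩ := Nat.exists_prime_lt_and_le_two_mul (t / 2) (by omega)
    have : Fact q.Prime := ⟨hqp⟩
    have hqt : q ≤ t := by omega
    have hq2t : t + 1 ≤ 2 * q := by omega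
    have hqm : q * q ≤ m := (Nat.mul_le_mul hqt hqt).trans ht1
    have hmq : m < 4 * q ^ 2 := by
      calc m < (t + 1) * (t + 1) := ht2
        _ ≤ (2 * q) * (2 * q) := Nat.mul_le_mul hq2t hq2t
        _ = 4 * q ^ 2 := by ring
    have hq8 : 8 ≤ q := by omega
    have : NeZero q := ⟨hqp.ne_zero⟩
    obtain ⟨e⟩ : Nonempty ((ZMod q × ZMod q) ↪ Fin m) := by
      apply Function.Embedding.nonempty_of_card_le
      rw [Fintype.card_prod, ZMod.card, Fintype.card_fin]
      exact hqm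
    have he : Function.Injective e := e.injective
    -- the test spaces
    have hall : ∀ x : Set (Fin 11 → ZMod q), ∃ s Λ, Coded R (fun z => ‖Jq e x z‖) s Λ := by
      intro x
      have hfr : Module.finrank ℝ (LinearMap.range (Jq e x)) = m := by
        rw [LinearMap.finrank_range_of_inj (Jq_injective (⇑e) x)]
        simp
      obtain ⟨Y, _, _, hY, hYn, hd⟩ :=
        hcon (LinearMap.range (Jq e x)) inferInstance inferInstance hfr
      have hYfd : FiniteDimensional ℝ Y := FiniteDimensional.of_finrank_pos (by omega)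
      obtain ⟨T0⟩ := hcle (LinearMap.range (Jq e x)) hfr Y hY
      have hset : ({d : ℝ | ∃ T : LinearMap.range (Jq e x) ≃L[ℝ] Y,
          d = ‖(T : LinearMap.range (Jq e x) →L[ℝ] Y)‖ *
            ‖(T.symm : Y →L[ℝ] LinearMap.range (Jq e x))‖}).Nonempty := ⟨_, T0, rfl⟩
      obtain ⟨d, ⟨T, rfl⟩, hT⟩ := exists_lt_of_csInf_lt hset hd
      let c : ℝ := ‖(T.symm : Y →L[ℝ] LinearMap.range (Jq e x))‖
      have hc0 : 0 ≤ c := (T.symm : Y →L[ℝ] LinearMap.range (Jq e x)).opNorm_nonneg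
      let A : (Fin m → ℝ) →ₗ[ℝ] Y :=
        c • ((T : LinearMap.range (Jq e x) →ₗ[ℝ] Y).comp (Jq e x).rangeRestrict)
      have hA : ∀ z, A z = c • T ((Jq e x).rangeRestrict z) := fun z => rfl
      have hJn : ∀ z, ‖(Jq e x).rangeRestrict z‖ = ‖Jq e x z‖ := fun z => rfl
      refine coded_of_close hm1 hY hYn A (fun z => ‖Jq e x z‖) hR0 ?_ ?_ (Jq_single_le he x)
      · intro z
        show ‖Jq e x z‖ ≤ ‖A z‖
        rw [hA, norm_smul, Real.norm_of_nonneg hc0, ← hJn]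
        calc ‖(Jq e x).rangeRestrict z‖ = ‖T.symm (T ((Jq e x).rangeRestrict z))‖ := by
              rw [T.symm_apply_apply]
          _ ≤ c * ‖T ((Jq e x).rangeRestrict z)‖ :=
              (T.symm : Y →L[ℝ] LinearMap.range (Jq e x)).le_opNorm _
      · intro z
        show ‖A z‖ ≤ R * ‖Jq e x z‖
        rw [hA, norm_smul, Real.norm_of_nonneg hc0, ← hJn]
        calc c * ‖T ((Jq e x).rangeRestrict z)‖
            ≤ c * (‖(T : LinearMap.range (Jq e x) →L[ℝ] Y)‖ * ‖(Jq e x).rangeRestrict z‖) :=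
              mul_le_mul_of_nonneg_left
                ((T : LinearMap.range (Jq e x) →L[ℝ] Y).le_opNorm _) hc0
          _ = (‖(T : LinearMap.range (Jq e x) →L[ℝ] Y)‖ * c) * ‖(Jq e x).rangeRestrict z‖ := by
              ring
          _ ≤ R * ‖(Jq e x).rangeRestrict z‖ :=
              mul_le_mul_of_nonneg_right hT.le (norm_nonneg _)
    choose s Λ hc using hall
    let code : Set (Fin 11 → ZMod q) → Code m := fun x => (s x, fun i k => rnd m (Λ x i k))
    have hcard : Fintype.card (Code m) < Fintype.card (Set (Fin 11 → ZMod q)) := by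
      have h1 : (Fintype.card (Code m) : ℝ) < (2 : ℝ) ^ (q ^ 11) :=
        (card_code_le (by omega)).trans_lt (card_gt hq8 hmq)
      have h2 : Fintype.card (Set (Fin 11 → ZMod q)) = 2 ^ (q ^ 11) := by
        rw [Fintype.card_set, Fintype.card_fun, ZMod.card, Fintype.card_fin]
      rw [h2]
      exact_mod_cast h1
    obtain ⟨x, y, hxy, hcode⟩ := Fintype.exists_ne_map_eq_of_card_lt code hcard
    have hs : s x = s y := congrArg Prod.fst hcode
    have hr : ∀ i k, rnd m (Λ x i k) = rnd m (Λ y i k) := fun i k =>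
      congrFun (congrFun (congrArg Prod.snd hcode) i) k
    have hcx := hc x
    rw [hs] at hcx
    have hfin : (q : ℝ) ≤ (R + 1 / 2) * 10 := by
      by_contra hlt
      apply hxy
      ext c
      constructor
      · intro h
        by_contra h'
        exact hlt (key hm1 hR0 hRm he hcx (hc y) hr h h')
      · intro h
        by_contra h'
        exact hlt (key hm1 hR0 hRm he (hc y) hcx (fun i k => (hr i k).symm) h h')
    have hlast : Real.sqrt m < 2 * q := by
      rw [Real.sqrt_lt' (by positivity)]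
      have : (m : ℝ) < 4 * (q : ℝ) ^ 2 := by exact_mod_cast hmq
      nlinarith
    rw [hR] at hfin
    linarith

end Pool.Agent.H314.DM
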